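import Mathlib
import Pool.Agent.Lib.MP_fd6ff4_co.Final

/-!
# Local face modules of vertex-induced triangulations: the degrees of the generators

Over every field `k` the local face module `L(Γ)` of a vertex-induced triangulation of the simplex
with `d` vertices is generated by its homogeneous elements of degree at most
`max (d / 2) (d - 2)`, so of degree at most `d / 2` if `d ≤ 4`. The field of coefficients can be
any extension `K` of `k` in which the coefficients `a i j`, `i ∈ σ j`, of the linear forms are
algebraically independent over `k`.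
-/

set_option autoImplicit false

namespace Pool.Agent.Results.MP_fd6ff4_co.GenerationDegree

open Pool.Agent.Lib.MP_fd6ff4_co

theorem result (k K : Type*) [Field k] [Field K] [Algebra k K] {d n : ℕ} (hd : 1 ≤ d)
    (Γ : Finset (Finset (Fin n))) (σ : Fin n → Finset (Fin d)) (h : Tri Γ σ)
    (a : Fin d → Fin n → K) (ha : AlgebraicIndependent k fun p : Idx σ => a p.1.1 p.1.2)
    (ha0 : ∀ i j, i ∉ σ j → a i j = 0) :
    GeneratedLE a σ Γ (max (d / 2) (d - 2)) ∧ (d ≤ 4 → GeneratedLE a σ Γ (d / 2)) := by
  have h1 : GeneratedLE a σ Γ (max (d / 2) (d - 2)) := generated (generic_of ha ha0) h hd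
  refine ⟨h1, fun h4 => ?_⟩
  have h2 : max (d / 2) (d - 2) = d / 2 := by omega
  rwa [h2] at h1

end Pool.Agent.Results.MP_fd6ff4_co.GenerationDegree
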