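import Mathlib
import Pool.Agent.Lib.MP_fd6ff4_co.R43.Main

/-!
# Local face modules of vertex-induced triangulations: a counterexample in characteristic 3

`TopTri Γ σ`: the finite simplicial complex `Γ` with the vertex set `Fin n` and the carriers
`σ j ⊆ Fin d` of its vertices is a vertex-induced topological triangulation of the simplex with the
vertex set `Fin d`. `GeneratedLE (genA k σ) σ Γ N`: the local face module `L(Γ)` over the field
`K = k(a_{i,j})` is generated by its homogeneous elements of degree at most `N`.
-/

set_option autoImplicit false

namespace Pool.Agent.Results.MP_fd6ff4_co.GenerationFails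

open Pool.Agent.Lib.MP_fd6ff4_co Pool.Agent.Lib.MP_fd6ff4_co.R43

/-- For every field of characteristic 3 there is a vertex-induced topological triangulation of the
simplex with 7 vertices whose local face module is not generated in degrees at most `3 = 7 / 2`. So
the statement of Q1 is false. -/
theorem result (k : Type*) [Field k] [CharP k 3] :
    ∃ (n : ℕ) (Γ : Finset (Finset (Fin n))) (σ : Fin n → Finset (Fin 7)),
      TopTri Γ σ ∧ ¬ GeneratedLE (genA k σ) σ Γ (7 / 2) :=
  final k

end Pool.Agent.Results.MP_fd6ff4_co.GenerationFails
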