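import Mathlib
import Pool.Agent.Lib.MP_fd6ff4_co.Six.Final

/-!
# Local face modules of vertex-induced triangulations: characteristic 0 and 2

Over a field `k` of characteristic 0 or 2 the local face module `L(Γ)` of a vertex-induced
triangulation of the simplex with `d` vertices is generated by its homogeneous elements of degree
at most `max (d / 2) (d - 6)`, so of degree at most `d / 2` if `d ≤ 12`. The field of coefficients
can be any extension `K` of `k` in which the coefficients `a i j`, `i ∈ σ j`, of the linear forms
are algebraically independent over `k`.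
-/

set_option autoImplicit false

namespace Pool.Agent.Results.MP_fd6ff4_co.GenerationTwelve

open Pool.Agent.Lib.MP_fd6ff4_co

theorem result (k K : Type*) [Field k] [Field K] [Algebra k K] (hk : CharP k 2 ∨ CharZero k)
    {d n : ℕ} (hd : 1 ≤ d) (Γ : Finset (Finset (Fin n))) (σ : Fin n → Finset (Fin d))
    (h : Two.Ball Γ σ) (a : Fin d → Fin n → K)
    (ha : AlgebraicIndependent k fun p : Idx σ => a p.1.1 p.1.2)
    (ha0 : ∀ i j, i ∉ σ j → a i j = 0) :
    GeneratedLE a σ Γ (max (d / 2) (d - 6)) ∧ (d ≤ 12 → GeneratedLE a σ Γ (d / 2)) := by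
  have h1 : GeneratedLE a σ Γ (max (d / 2) (d - 6)) := Six.generated_six hk ha ha0 h hd
  refine ⟨h1, fun h4 => ?_⟩
  have h2 : max (d / 2) (d - 6) = d / 2 := by omega
  rwa [h2] at h1

end Pool.Agent.Results.MP_fd6ff4_co.GenerationTwelve
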